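import Mathlib

/-! Optimal polynomial approximants on the bidisk: basic definitions and the inner product. -/

namespace Pool.Agent.U592.Shanks

open MvPolynomial ComplexConjugate

/-- The degree-lexicographic enumeration of the exponents `(j, k)` of the monomials
`z₁ ^ j * z₂ ^ k`: `(0,0), (1,0), (0,1), (2,0), (1,1), (0,2), (3,0), …`. -/
def expo : ℕ → ℕ × ℕ
  | 0 => (0, 0)
  | n + 1 => if (expo n).1 = 0 then ((expo n).2 + 1, 0) else ((expo n).1 - 1, (expo n).2 + 1)

/-- The monomial `z₁ ^ j * z₂ ^ k`. -/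
noncomputable def mono (a : ℕ × ℕ) : MvPolynomial (Fin 2) ℂ := X 0 ^ a.1 * X 1 ^ a.2

/-- The span `P n` of the first `n + 1` monomials in the degree-lexicographic ordering. -/
noncomputable def P (n : ℕ) : Submodule ℂ (MvPolynomial (Fin 2) ℂ) :=
  Submodule.span ℂ {p | ∃ j : ℕ, j ≤ n ∧ p = mono (expo j)}

/-- The squared norm of a polynomial in the Hardy space of the bidisk: the sum of the squared
moduli of its coefficients. -/
noncomputable def h2sq (p : MvPolynomial (Fin 2) ℂ) : ℝ := ∑ m ∈ p.support, ‖p.coeff m‖ ^ 2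

/-- `q` is the `n`-th optimal polynomial approximant of `1 / f` in the Hardy space of the
bidisk: it minimises `‖p * f - 1‖` over `p ∈ P n`. -/
def IsOPA (f : MvPolynomial (Fin 2) ℂ) (n : ℕ) (q : MvPolynomial (Fin 2) ℂ) : Prop :=
  q ∈ P n ∧ ∀ p ∈ P n, h2sq (q * f - 1) ≤ h2sq (p * f - 1)

/-- the coefficient inner product -/
noncomputable def ip (p q : MvPolynomial (Fin 2) ℂ) : ℂ :=
  ∑ m ∈ p.support, conj (p.coeff m) * q.coeff m

lemma ip_eq_sum {p : MvPolynomial (Fin 2) ℂ} (q : MvPolynomial (Fin 2) ℂ)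
    {S : Finset (Fin 2 →₀ ℕ)} (h : p.support ⊆ S) :
    ip p q = ∑ m ∈ S, conj (p.coeff m) * q.coeff m := by
  unfold ip
  refine Finset.sum_subset h ?_
  intro m _ hm
  have : p.coeff m = 0 := by simpa [MvPolynomial.mem_support_iff] using hm
  simp [this]

lemma ip_add_right (p q r : MvPolynomial (Fin 2) ℂ) : ip p (q + r) = ip p q + ip p r := by
  unfold ip
  rw [← Finset.sum_add_distrib]
  refine Finset.sum_congr rfl fun m _ => ?_
  rw [coeff_add]; ring

lemma ip_sub_right (p q r : MvPolynomial (Fin 2) ℂ) : ip p (q - r) = ip p q - ip p r := by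
  unfold ip
  rw [← Finset.sum_sub_distrib]
  refine Finset.sum_congr rfl fun m _ => ?_
  rw [coeff_sub]; ring

lemma ip_smul_right (c : ℂ) (p q : MvPolynomial (Fin 2) ℂ) : ip p (c • q) = c * ip p q := by
  unfold ip
  rw [Finset.mul_sum]
  refine Finset.sum_congr rfl fun m _ => ?_
  rw [coeff_smul, smul_eq_mul]; ring

lemma ip_zero_right (p : MvPolynomial (Fin 2) ℂ) : ip p 0 = 0 := by
  simp [ip]

lemma ip_symm (p q : MvPolynomial (Fin 2) ℂ) : ip q p = conj (ip p q) := by
  rw [ip_eq_sum p (Finset.subset_union_left (s₁ := q.support) (s₂ := p.support)),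
    ip_eq_sum q (Finset.subset_union_right (s₁ := q.support) (s₂ := p.support)), map_sum]
  refine Finset.sum_congr rfl fun m _ => ?_
  rw [map_mul, Complex.conj_conj]; ring

lemma ip_add_left (p q r : MvPolynomial (Fin 2) ℂ) : ip (p + q) r = ip p r + ip q r := by
  rw [ip_symm r (p + q), ip_add_right, map_add, ← ip_symm, ← ip_symm]

lemma ip_sub_left (p q r : MvPolynomial (Fin 2) ℂ) : ip (p - q) r = ip p r - ip q r := by
  rw [ip_symm r (p - q), ip_sub_right, map_sub, ← ip_symm, ← ip_symm]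

lemma ip_smul_left (c : ℂ) (p q : MvPolynomial (Fin 2) ℂ) :
    ip (c • p) q = conj c * ip p q := by
  rw [ip_symm q (c • p), ip_smul_right, map_mul, ← ip_symm]

lemma ip_sum_right {ι : Type*} (s : Finset ι) (p : MvPolynomial (Fin 2) ℂ)
    (g : ι → MvPolynomial (Fin 2) ℂ) : ip p (∑ i ∈ s, g i) = ∑ i ∈ s, ip p (g i) := by
  classical
  induction s using Finset.induction_on with
  | empty => simp [ip_zero_right]
  | insert a s ha ih => rw [Finset.sum_insert ha, Finset.sum_insert ha, ip_add_right, ih]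

lemma ip_sum_left {ι : Type*} (s : Finset ι) (q : MvPolynomial (Fin 2) ℂ)
    (g : ι → MvPolynomial (Fin 2) ℂ) : ip (∑ i ∈ s, g i) q = ∑ i ∈ s, ip (g i) q := by
  rw [ip_symm q, ip_sum_right, map_sum]
  exact Finset.sum_congr rfl fun i _ => (ip_symm _ _).symm

lemma ip_self (p : MvPolynomial (Fin 2) ℂ) : ip p p = (h2sq p : ℂ) := by
  unfold ip h2sq
  push_cast
  refine Finset.sum_congr rfl fun m _ => ?_
  rw [mul_comm, Complex.mul_conj, Complex.normSq_eq_norm_sq]
  push_cast; rfl

lemma h2sq_nonneg (p : MvPolynomial (Fin 2) ℂ) : 0 ≤ h2sq p :=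
  Finset.sum_nonneg fun _ _ => by positivity

lemma h2sq_pos {p : MvPolynomial (Fin 2) ℂ} (hp : p ≠ 0) : 0 < h2sq p := by
  obtain ⟨m, hm⟩ := MvPolynomial.ne_zero_iff.1 hp
  have hm' : m ∈ p.support := MvPolynomial.mem_support_iff.2 hm
  unfold h2sq
  refine lt_of_lt_of_le (?_ : 0 < ‖p.coeff m‖ ^ 2)
    (Finset.single_le_sum (f := fun m => ‖p.coeff m‖ ^ 2) (fun _ _ => by positivity) hm')
  have := norm_pos_iff.2 hm
  positivity

lemma h2sq_add (p q : MvPolynomial (Fin 2) ℂ) :
    h2sq (p + q) = h2sq p + 2 * (ip p q).re + h2sq q := by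
  have h : ((h2sq (p + q) : ℝ) : ℂ) = h2sq p + (ip p q + conj (ip p q)) + h2sq q := by
    rw [← ip_self, ← ip_self, ← ip_self, ip_add_left, ip_add_right, ip_add_right, ip_symm p q]
    ring
  have h2 := congrArg Complex.re h
  simp only [Complex.ofReal_re, Complex.add_re, Complex.conj_re] at h2
  linarith

lemma h2sq_smul (c : ℂ) (p : MvPolynomial (Fin 2) ℂ) : h2sq (c • p) = ‖c‖ ^ 2 * h2sq p := by
  have h : ((h2sq (c • p) : ℝ) : ℂ) = ((‖c‖ ^ 2 * h2sq p : ℝ) : ℂ) := by
    rw [← ip_self, ip_smul_left, ip_smul_right, ip_self, ← mul_assoc, mul_comm (conj c) c,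
      Complex.mul_conj, Complex.normSq_eq_norm_sq]
    push_cast; rfl
  exact_mod_cast h

/-- the monomial with exponents `(a, b)` in terms of `monomial`. -/
lemma mono_eq (a : ℕ × ℕ) :
    mono a = monomial (Finsupp.single 0 a.1 + Finsupp.single 1 a.2) (1 : ℂ) := by
  unfold mono
  rw [X_pow_eq_monomial, X_pow_eq_monomial, monomial_mul, one_mul]

lemma expfin_inj (a b : ℕ × ℕ) :
    ((Finsupp.single 0 a.1 + Finsupp.single 1 a.2 : Fin 2 →₀ ℕ) =
      Finsupp.single 0 b.1 + Finsupp.single 1 b.2) ↔ a = b := by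
  constructor
  · intro h
    have h0 := DFunLike.congr_fun h 0
    have h1 := DFunLike.congr_fun h 1
    simp at h0 h1
    exact Prod.ext h0 h1
  · rintro rfl; rfl

lemma ip_mono (a b : ℕ × ℕ) : ip (mono a) (mono b) = if a = b then 1 else 0 := by
  classical
  rw [mono_eq, mono_eq]
  unfold ip
  rw [MvPolynomial.support_monomial, if_neg one_ne_zero, Finset.sum_singleton, coeff_monomial,
    coeff_monomial, if_pos rfl]
  by_cases h : a = b
  · subst h; simp
  · have h' : ¬ ((Finsupp.single 0 b.1 + Finsupp.single 1 b.2 : Fin 2 →₀ ℕ) =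
      Finsupp.single 0 a.1 + Finsupp.single 1 a.2) := by
      rw [expfin_inj]; exact fun e => h e.symm
    rw [if_neg h, if_neg h']; simp

lemma mono_zero : mono (0, 0) = 1 := by simp [mono]

lemma mono_mul (a b : ℕ × ℕ) : mono a * mono b = mono (a.1 + b.1, a.2 + b.2) := by
  unfold mono
  simp only [pow_add]; ring

/-- if the residual is orthogonal to all `h * f`, then `q` is the strict minimiser -/
lemma strict_min {f q : MvPolynomial (Fin 2) ℂ} {n : ℕ} (hf : f ≠ 0) (hq : q ∈ P n)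
    (horth : ∀ j ≤ n, ip (q * f - 1) (mono (expo j) * f) = 0) :
    ∀ p ∈ P n, p ≠ q → h2sq (q * f - 1) < h2sq (p * f - 1) := by
  have key : ∀ h ∈ P n, ip (q * f - 1) (h * f) = 0 := by
    intro h hh
    unfold P at hh
    induction hh using Submodule.span_induction with
    | mem x hx =>
      obtain ⟨j, hj, rfl⟩ := hx
      exact horth j hj
    | zero => rw [zero_mul, ip_zero_right]
    | add x y _ _ hx hy => rw [add_mul, ip_add_right, hx, hy, add_zero]
    | smul a x _ hx => rw [smul_mul_assoc, ip_smul_right, hx, mul_zero]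
  intro p hp hpq
  have e : p * f - 1 = (q * f - 1) + (p - q) * f := by ring
  rw [e, h2sq_add, key _ (Submodule.sub_mem _ hp hq)]
  have : 0 < h2sq ((p - q) * f) := h2sq_pos (mul_ne_zero (sub_ne_zero.2 hpq) hf)
  simp only [Complex.zero_re]
  linarith

/-- a minimiser has residual orthogonal to all `h * f` -/
lemma orth_of_min {f q : MvPolynomial (Fin 2) ℂ} {n : ℕ} (hq : IsOPA f n q)
    (h : MvPolynomial (Fin 2) ℂ) (hh : h ∈ P n) : ip (q * f - 1) (h * f) = 0 := by
  by_contra hne
  set g := ip (q * f - 1) (h * f) with hg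
  have hne0 : h * f ≠ 0 := by
    intro h0
    apply hne
    rw [hg, h0, ip_zero_right]
  have hpos := h2sq_pos hne0
  set s := h2sq (h * f) with hs
  set t : ℂ := -(conj g) / (s : ℂ) with ht
  have hmem : q + t • h ∈ P n := Submodule.add_mem _ hq.1 (Submodule.smul_mem _ _ hh)
  have h1 := hq.2 _ hmem
  have e : (q + t • h) * f - 1 = (q * f - 1) + t • (h * f) := by
    rw [add_mul, smul_mul_assoc]; ring
  rw [e, h2sq_add, ip_smul_right, h2sq_smul, ← hg, ← hs] at h1
  have hgn : 0 < ‖g‖ := norm_pos_iff.2 hne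
  have e1 : (t * g).re = -(‖g‖ ^ 2) / s := by
    have : t * g = ((-(‖g‖ ^ 2) / s : ℝ) : ℂ) := by
      rw [ht]
      have : conj g * g = ((‖g‖ ^ 2 : ℝ) : ℂ) := by
        rw [mul_comm, Complex.mul_conj, Complex.normSq_eq_norm_sq]
      push_cast at this ⊢
      rw [← this]; ring
    rw [this, Complex.ofReal_re]
  have e2 : ‖t‖ ^ 2 = ‖g‖ ^ 2 / s ^ 2 := by
    rw [ht, norm_div, norm_neg, RCLike.norm_conj, Complex.norm_real, Real.norm_eq_abs, div_pow,
      sq_abs]
  rw [e1, e2] at h1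
  have h3 : ‖g‖ ^ 2 / s ^ 2 * s = ‖g‖ ^ 2 / s := by field_simp
  rw [h3] at h1
  have h4 : 0 < ‖g‖ ^ 2 / s := by positivity
  have h5 : -(‖g‖ ^ 2) / s = -(‖g‖ ^ 2 / s) := by ring
  rw [h5] at h1
  linarith

lemma mono_mem_P {n j : ℕ} (h : j ≤ n) : mono (expo j) ∈ P n :=
  Submodule.subset_span ⟨j, h, rfl⟩

/-! ### the enumeration -/

lemma expo_spec (n : ℕ) :
    2 * n = ((expo n).1 + (expo n).2) * ((expo n).1 + (expo n).2 + 1) + 2 * (expo n).2 := by
  induction n with
  | zero => simp [expo]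
  | succ n ih =>
    rw [expo]
    split_ifs with h
    · rw [h] at ih
      simp only [zero_add] at ih
      simp only [add_zero, mul_zero]
      nlinarith
    · obtain ⟨a, ha⟩ : ∃ a, (expo n).1 = a + 1 := ⟨(expo n).1 - 1, by omega⟩
      rw [ha] at ih ⊢
      simp only [Nat.add_sub_cancel]
      nlinarith

lemma idx_inj {a b a' b' : ℕ}
    (h : (a + b) * (a + b + 1) + 2 * b = (a' + b') * (a' + b' + 1) + 2 * b') :
    a = a' ∧ b = b' := by
  have hs : a + b = a' + b' := by
    rcases lt_trichotomy (a + b) (a' + b') with hlt | heq | hgt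
    · exfalso; nlinarith
    · exact heq
    · exfalso; nlinarith
  rw [hs] at h
  constructor <;> omega

lemma expo_surj (a b : ℕ) : ∃ m, expo m = (a, b) ∧
    2 * m = (a + b) * (a + b + 1) + 2 * b := by
  obtain ⟨r, hr⟩ := Nat.even_mul_succ_self (a + b)
  refine ⟨r + b, ?_, by rw [hr]; ring⟩
  have h := expo_spec (r + b)
  have h2 : 2 * (r + b) = (a + b) * (a + b + 1) + 2 * b := by rw [hr]; ring
  rw [h2] at h
  obtain ⟨h3, h4⟩ := idx_inj h
  exact Prod.ext h3.symm h4.symm

/-- the two scales -/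
lemma exists_scales {n : ℕ} (hn : 2 ≤ n) : ∃ k l : ℕ, 0 < k ∧ 0 < l ∧
    (∃ j ≤ n, expo j = (k, 0)) ∧ (∃ j ≤ n, expo j = (0, l)) ∧
    ∀ j ≤ n, ∀ i i' : ℕ, expo j = (k * i, l * i') →
      (i = 0 ∧ i' = 0) ∨ (i = 1 ∧ i' = 0) ∨ (i = 0 ∧ i' = 1) := by
  classical
  -- largest k with k (k+1) ≤ 2 n
  obtain ⟨k, hk1, hk2⟩ : ∃ k : ℕ, k * (k + 1) ≤ 2 * n ∧ 2 * n < (k + 1) * (k + 2) := by
    set k := Nat.findGreatest (fun k => k * (k + 1) ≤ 2 * n) (2 * n) with hk
    have h1 : k * (k + 1) ≤ 2 * n :=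
      Nat.findGreatest_spec (P := fun k => k * (k + 1) ≤ 2 * n) (m := 0) (by omega) (by simp)
    refine ⟨k, h1, ?_⟩
    by_contra hcon
    push Not at hcon
    have h2 : k + 1 ≤ 2 * n := by nlinarith
    have h3 := Nat.le_findGreatest (P := fun k => k * (k + 1) ≤ 2 * n) h2
      (by simpa [add_assoc] using hcon)
    rw [← hk] at h3
    omega
  obtain ⟨l, hl1, hl2⟩ : ∃ l : ℕ, l * (l + 3) ≤ 2 * n ∧ 2 * n < (l + 1) * (l + 4) := by
    set l := Nat.findGreatest (fun k => k * (k + 3) ≤ 2 * n) (2 * n) with hl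
    have h1 : l * (l + 3) ≤ 2 * n :=
      Nat.findGreatest_spec (P := fun k => k * (k + 3) ≤ 2 * n) (m := 0) (by omega) (by simp)
    refine ⟨l, h1, ?_⟩
    by_contra hcon
    push Not at hcon
    have h2 : l + 1 ≤ 2 * n := by nlinarith
    have h3 := Nat.le_findGreatest (P := fun k => k * (k + 3) ≤ 2 * n) h2
      (by simpa [add_assoc] using hcon)
    rw [← hl] at h3
    omega
  have hkpos : 0 < k := by
    rcases Nat.eq_zero_or_pos k with h | h
    · subst h; omega
    · exact h
  have hlpos : 0 < l := by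
    rcases Nat.eq_zero_or_pos l with h | h
    · subst h; omega
    · exact h
  refine ⟨k, l, hkpos, hlpos, ?_, ?_, ?_⟩
  · obtain ⟨m, hm, hm2⟩ := expo_surj k 0
    exact ⟨m, by simp only [add_zero, mul_zero] at hm2; omega, hm⟩
  · obtain ⟨m, hm, hm2⟩ := expo_surj 0 l
    refine ⟨m, ?_, hm⟩
    have : (0 + l) * (0 + l + 1) + 2 * l = l * (l + 3) := by ring
    omega
  · intro j hj i i' he
    have hs := expo_spec j
    rw [he] at hs
    simp only at hs
    have hdeg : k * i + l * i' ≤ k := by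
      by_contra hcon
      push Not at hcon
      have : (k + 1) * (k + 2) ≤ (k * i + l * i') * (k * i + l * i' + 1) :=
        Nat.mul_le_mul (by omega) (by omega)
      omega
    rcases Nat.eq_zero_or_pos i with hi | hi
    · subst hi
      rcases Nat.lt_or_ge i' 2 with h2 | h2
      · rcases Nat.eq_zero_or_pos i' with h3 | h3
        · exact Or.inl ⟨rfl, h3⟩
        · exact Or.inr (Or.inr ⟨rfl, by omega⟩)
      · exfalso
        have h4 : l + 1 ≤ l * i' := by nlinarith
        simp only [mul_zero, zero_add] at hs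
        have : (l + 1) * (l + 4) ≤ (l * i') * (l * i' + 1) + 2 * (l * i') := by
          nlinarith
        omega
    · have h5 : k ≤ k * i := Nat.le_mul_of_pos_right k hi
      have h6 : l * i' = 0 := by omega
      have h7 : i' = 0 := by
        rcases Nat.mul_eq_zero.1 h6 with h | h
        · omega
        · exact h
      have h8 : k * i = k := by omega
      have h9 : i = 1 := by
        have : k * i = k * 1 := by omega
        exact Nat.eq_of_mul_eq_mul_left hkpos this
      exact Or.inr (Or.inl ⟨h9, h7⟩)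

end Pool.Agent.U592.Shanks
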