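import Pool.Agent.U592.Shanks.Basic

/-! The explicit polynomial and its correlations. -/

namespace Pool.Agent.U592.Shanks

open MvPolynomial ComplexConjugate

/-- coefficients of `(2 + w z)² (3 + 2 w) (3 + 2 z)` -/
def G : ℕ → ℕ → ℤ
  | 0, 0 => 36
  | 1, 0 => 24
  | 0, 1 => 24
  | 1, 1 => 52
  | 2, 1 => 24
  | 1, 2 => 24
  | 2, 2 => 25
  | 3, 2 => 6
  | 2, 3 => 6
  | 3, 3 => 4
  | _, _ => 0

/-- `(2 + w z)² (3 + 2 w) (3 + 2 z)` with `w = z₁ ^ k`, `z = z₂ ^ l` -/
noncomputable def F (k l : ℕ) : MvPolynomial (Fin 2) ℂ :=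
  ∑ u ∈ Finset.range 4 ×ˢ Finset.range 4, ((G u.1 u.2 : ℤ) : ℂ) • mono (k * u.1, l * u.2)

/-- integer correlation -/
def corr (a b : ℕ × ℕ) : ℤ :=
  ∑ u ∈ Finset.range 4 ×ˢ Finset.range 4, ∑ v ∈ Finset.range 4 ×ˢ Finset.range 4,
    if (a.1 + u.1, a.2 + u.2) = (b.1 + v.1, b.2 + v.2) then G u.1 u.2 * G v.1 v.2 else 0

lemma mono_mul_F (k l : ℕ) (a : ℕ × ℕ) : mono a * F k l =
    ∑ u ∈ Finset.range 4 ×ˢ Finset.range 4,
      ((G u.1 u.2 : ℤ) : ℂ) • mono (a.1 + k * u.1, a.2 + l * u.2) := by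
  unfold F
  rw [Finset.mul_sum]
  refine Finset.sum_congr rfl fun u _ => ?_
  rw [mul_smul_comm, mono_mul]

lemma ip_mono_F (k l : ℕ) (a b : ℕ × ℕ) : ip (mono a * F k l) (mono b * F k l) =
    ((∑ u ∈ Finset.range 4 ×ˢ Finset.range 4, ∑ v ∈ Finset.range 4 ×ˢ Finset.range 4,
    if (a.1 + k * u.1, a.2 + l * u.2) = (b.1 + k * v.1, b.2 + l * v.2) then
      G u.1 u.2 * G v.1 v.2 else 0 : ℤ) : ℂ) := by
  rw [mono_mul_F, mono_mul_F, ip_sum_left]
  push_cast
  refine Finset.sum_congr rfl fun u _ => ?_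
  rw [ip_sum_right]
  refine Finset.sum_congr rfl fun v _ => ?_
  rw [ip_smul_left, ip_smul_right, ip_mono]
  have : conj ((G u.1 u.2 : ℤ) : ℂ) = ((G u.1 u.2 : ℤ) : ℂ) := by
    rw [← Complex.ofReal_intCast, Complex.conj_ofReal]
  rw [this]
  split_ifs <;> simp

lemma ip_lattice {k l : ℕ} (hk : 0 < k) (hl : 0 < l) (a b : ℕ × ℕ) :
    ip (mono (k * a.1, l * a.2) * F k l) (mono (k * b.1, l * b.2) * F k l) =
      ((corr a b : ℤ) : ℂ) := by
  rw [ip_mono_F]
  unfold corr
  congr 1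
  refine Finset.sum_congr rfl fun u _ => Finset.sum_congr rfl fun v _ => ?_
  have : ((k * a.1 + k * u.1, l * a.2 + l * u.2) = (k * b.1 + k * v.1, l * b.2 + l * v.2)) ↔
      ((a.1 + u.1, a.2 + u.2) = (b.1 + v.1, b.2 + v.2)) := by
    rw [← Nat.mul_add, ← Nat.mul_add, ← Nat.mul_add, ← Nat.mul_add, Prod.mk.injEq, Prod.mk.injEq,
      Nat.mul_right_inj hk.ne', Nat.mul_right_inj hl.ne']
  simp only [this]

lemma ip_off {k l : ℕ} (a b : ℕ × ℕ) (hb : ¬ (k ∣ b.1 ∧ l ∣ b.2)) :
    ip (mono (k * a.1, l * a.2) * F k l) (mono b * F k l) = 0 := by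
  rw [ip_mono_F]
  have : ∀ u v : ℕ × ℕ, ¬ ((k * a.1 + k * u.1, l * a.2 + l * u.2) =
      (b.1 + k * v.1, b.2 + l * v.2)) := by
    intro u v h
    rw [Prod.mk.injEq] at h
    apply hb
    constructor
    · have h1 : k ∣ b.1 + k * v.1 := ⟨a.1 + u.1, by rw [← h.1]; ring⟩
      exact (Nat.dvd_add_left (Dvd.intro _ rfl)).1 h1
    · have h1 : l ∣ b.2 + l * v.2 := ⟨a.2 + u.2, by rw [← h.2]; ring⟩
      exact (Nat.dvd_add_left (Dvd.intro _ rfl)).1 h1
  simp only [this, if_false, Finset.sum_const_zero, Int.cast_zero]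

lemma ip_one_F {k l : ℕ} (hk : 0 < k) (hl : 0 < l) (b : ℕ × ℕ) :
    ip 1 (mono b * F k l) = if b = (0, 0) then 36 else 0 := by
  rw [← mono_zero, mono_mul_F, ip_sum_right]
  simp only [ip_smul_right, ip_mono]
  split_ifs with h
  · subst h
    rw [Finset.sum_eq_single (0, 0)]
    · simp [G]
    · intro u _ hu
      have : ¬ ((0, 0) = (0 + k * u.1, 0 + l * u.2)) := by
        intro h
        rw [Prod.mk.injEq] at h
        apply hu
        have h1 : k * u.1 = 0 := by omega
        have h2 : l * u.2 = 0 := by omega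
        rcases Nat.mul_eq_zero.1 h1 with h3 | h3
        · omega
        · rcases Nat.mul_eq_zero.1 h2 with h4 | h4
          · omega
          · exact Prod.ext h3 h4
      rw [if_neg this, mul_zero]
    · intro h
      simp at h
  · refine Finset.sum_eq_zero fun u _ => ?_
    have : ¬ ((0, 0) = (b.1 + k * u.1, b.2 + l * u.2)) := by
      intro h'
      rw [Prod.mk.injEq] at h'
      apply h
      exact Prod.ext (by simp only; omega) (by simp only; omega)
    rw [if_neg this, mul_zero]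

lemma corr_00 : corr (0, 0) (0, 0) = 7017 := by decide +kernel
lemma corr_10 : corr (1, 0) (0, 0) = 4134 := by decide +kernel
lemma corr_01 : corr (0, 1) (0, 0) = 4134 := by decide +kernel
lemma corr_00_10 : corr (0, 0) (1, 0) = 4134 := by decide +kernel
lemma corr_00_01 : corr (0, 0) (0, 1) = 4134 := by decide +kernel
lemma corr_10_10 : corr (1, 0) (1, 0) = 7017 := by decide +kernel
lemma corr_01_01 : corr (0, 1) (0, 1) = 7017 := by decide +kernel
lemma corr_10_01 : corr (1, 0) (0, 1) = 1188 := by decide +kernel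
lemma corr_01_10 : corr (0, 1) (1, 0) = 1188 := by decide +kernel

/-- the optimal approximant -/
noncomputable def Q (k l : ℕ) : MvPolynomial (Fin 2) ℂ :=
  ((295380 / 23394573 : ℝ) : ℂ) • mono (k * 0, l * 0) -
    ((148824 / 23394573 : ℝ) : ℂ) • (mono (k * 1, l * 0) + mono (k * 0, l * 1))

lemma Q_mul_F (k l : ℕ) : Q k l * F k l - 1 =
    ((295380 / 23394573 : ℝ) : ℂ) • (mono (k * 0, l * 0) * F k l) -
    ((148824 / 23394573 : ℝ) : ℂ) • (mono (k * 1, l * 0) * F k l + mono (k * 0, l * 1) * F k l) -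
      1 := by
  unfold Q
  rw [sub_mul, smul_mul_assoc, smul_mul_assoc, add_mul]

lemma ip_residual (k l : ℕ) (b : ℕ × ℕ) : ip (Q k l * F k l - 1) (mono b * F k l) =
    ((295380 / 23394573 : ℝ) : ℂ) * ip (mono (k * 0, l * 0) * F k l) (mono b * F k l) -
    ((148824 / 23394573 : ℝ) : ℂ) * (ip (mono (k * 1, l * 0) * F k l) (mono b * F k l) +
      ip (mono (k * 0, l * 1) * F k l) (mono b * F k l)) - ip 1 (mono b * F k l) := by
  rw [Q_mul_F, ip_sub_left, ip_sub_left, ip_smul_left, ip_smul_left, ip_add_left,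
    Complex.conj_ofReal, Complex.conj_ofReal]

lemma eval_F (k l : ℕ) (z : Fin 2 → ℂ) : eval z (F k l) =
    (2 + z 0 ^ k * z 1 ^ l) ^ 2 * (3 + 2 * z 0 ^ k) * (3 + 2 * z 1 ^ l) := by
  unfold F
  rw [map_sum]
  rw [Finset.sum_product]
  simp only [Finset.sum_range_succ, Finset.sum_range_zero, smul_eval, mono, map_mul, map_pow,
    eval_X, G]
  simp only [pow_mul]
  push_cast
  ring

lemma eval_Q (k l : ℕ) (z : Fin 2 → ℂ) : eval z (Q k l) =
    295380 / 23394573 - 148824 / 23394573 * (z 0 ^ k + z 1 ^ l) := by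
  unfold Q
  simp only [map_sub, map_add, smul_eval, mono, map_mul, map_pow, eval_X]
  push_cast
  ring

lemma F_ne_zero_closed (k l : ℕ) (z : Fin 2 → ℂ) (hz : ∀ i, ‖z i‖ ≤ 1) :
    eval z (F k l) ≠ 0 := by
  rw [eval_F]
  have h0 : ‖z 0 ^ k‖ ≤ 1 := by rw [norm_pow]; exact pow_le_one₀ (norm_nonneg _) (hz 0)
  have h1 : ‖z 1 ^ l‖ ≤ 1 := by rw [norm_pow]; exact pow_le_one₀ (norm_nonneg _) (hz 1)
  have key : ∀ (c : ℝ) (w : ℂ), ‖w‖ < c → (c : ℂ) + w ≠ 0 := by
    intro c w hw h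
    have : w = -(c : ℂ) := by linear_combination h
    rw [this, norm_neg, Complex.norm_real, Real.norm_eq_abs] at hw
    exact absurd hw (not_lt.2 (le_abs_self c))
  have hA : (2 : ℂ) + z 0 ^ k * z 1 ^ l ≠ 0 := by
    have := key 2 (z 0 ^ k * z 1 ^ l) (by
      rw [norm_mul]
      nlinarith [norm_nonneg (z 0 ^ k), norm_nonneg (z 1 ^ l)])
    simpa using this
  have hB : (3 : ℂ) + 2 * z 0 ^ k ≠ 0 := by
    have := key 3 (2 * z 0 ^ k) (by rw [norm_mul]; simp only [Complex.norm_ofNat]; linarith)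
    simpa using this
  have hC : (3 : ℂ) + 2 * z 1 ^ l ≠ 0 := by
    have := key 3 (2 * z 1 ^ l) (by rw [norm_mul]; simp only [Complex.norm_ofNat]; linarith)
    simpa using this
  exact mul_ne_zero (mul_ne_zero (pow_ne_zero _ hA) hB) hC

/-- the counterexample for each `n ≥ 2` -/
theorem counterexample {n : ℕ} (hn : 2 ≤ n) :
    ∃ f q : MvPolynomial (Fin 2) ℂ, (∀ z : Fin 2 → ℂ, (∀ i, ‖z i‖ ≤ 1) → eval z f ≠ 0) ∧
      IsOPA f n q ∧ (∀ p, IsOPA f n p → p = q) ∧
      ∃ z : Fin 2 → ℂ, (∀ i, ‖z i‖ < 1) ∧ eval z q = 0 := by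
  obtain ⟨k, l, hk, hl, ⟨jk, hjk, hjk2⟩, ⟨jl, hjl, hjl2⟩, hlat⟩ := exists_scales hn
  have hF := F_ne_zero_closed k l
  have hF0 : F k l ≠ 0 := by
    intro h
    apply hF 0 (by intro i; simp)
    rw [h, map_zero]
  have hQ : Q k l ∈ P n := by
    unfold Q
    refine Submodule.sub_mem _ (Submodule.smul_mem _ _ ?_) (Submodule.smul_mem _ _ ?_)
    · have := mono_mem_P (n := n) (j := 0) (by omega)
      simpa [expo] using this
    · refine Submodule.add_mem _ ?_ ?_
      · have := mono_mem_P hjk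
        rw [hjk2] at this
        simpa using this
      · have := mono_mem_P hjl
        rw [hjl2] at this
        simpa using this
  have horth : ∀ j ≤ n, ip (Q k l * F k l - 1) (mono (expo j) * F k l) = 0 := by
    intro j hj
    rw [ip_residual]
    by_cases hd : k ∣ (expo j).1 ∧ l ∣ (expo j).2
    · obtain ⟨⟨i, hi⟩, ⟨i', hi'⟩⟩ := hd
      have he : expo j = (k * i, l * i') := Prod.ext hi hi'
      have hk0 : k ≠ 0 := hk.ne'
      have hl0 : l ≠ 0 := hl.ne'
      rw [he, ip_lattice hk hl (0, 0) (i, i'), ip_lattice hk hl (1, 0) (i, i'),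
        ip_lattice hk hl (0, 1) (i, i'), ip_one_F hk hl]
      rcases hlat j hj i i' he with ⟨h1, h2⟩ | ⟨h1, h2⟩ | ⟨h1, h2⟩
      · subst h1 h2
        rw [corr_00, corr_10, corr_01, if_pos (by simp)]
        push_cast; norm_num
      · subst h1 h2
        rw [corr_00_10, corr_10_10, corr_01_10, if_neg (by simp [hk0])]
        push_cast; norm_num
      · subst h1 h2
        rw [corr_00_01, corr_10_01, corr_01_01, if_neg (by simp [hl0])]
        push_cast; norm_num
    · rw [ip_off (0, 0) _ hd, ip_off (1, 0) _ hd, ip_off (0, 1) _ hd, ip_one_F hk hl]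
      have : ¬ (expo j = (0, 0)) := by
        intro h
        apply hd
        rw [h]; simp
      rw [if_neg this]; simp
  have hmin := strict_min hF0 hQ horth
  refine ⟨F k l, Q k l, hF, ⟨hQ, ?_⟩, ?_, ?_⟩
  · intro p hp
    by_cases h : p = Q k l
    · rw [h]
    · exact (hmin p hp h).le
  · intro p hp
    by_contra h
    exact absurd (hp.2 _ hQ) (not_le.2 (hmin p hp.1 h))
  · -- the zero
    set s : ℝ := 147690 / 148824 with hs
    have hs0 : 0 < s := by rw [hs]; norm_num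
    have hs1 : s < 1 := by rw [hs]; norm_num
    set x : ℝ := s ^ ((k : ℝ)⁻¹) with hx
    set y : ℝ := s ^ ((l : ℝ)⁻¹) with hy
    have hxk : x ^ k = s := Real.rpow_inv_natCast_pow hs0.le hk.ne'
    have hyl : y ^ l = s := Real.rpow_inv_natCast_pow hs0.le hl.ne'
    have hx0 : 0 ≤ x := Real.rpow_nonneg hs0.le _
    have hy0 : 0 ≤ y := Real.rpow_nonneg hs0.le _
    have hx1 : x < 1 := Real.rpow_lt_one hs0.le hs1 (by positivity)
    have hy1 : y < 1 := Real.rpow_lt_one hs0.le hs1 (by positivity)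
    refine ⟨![(x : ℂ), (y : ℂ)], ?_, ?_⟩
    · intro i
      fin_cases i
      · show ‖(x : ℂ)‖ < 1
        rw [Complex.norm_real, Real.norm_eq_abs, abs_of_nonneg hx0]; exact hx1
      · show ‖(y : ℂ)‖ < 1
        rw [Complex.norm_real, Real.norm_eq_abs, abs_of_nonneg hy0]; exact hy1
    · rw [eval_Q]
      have e1 : (![(x : ℂ), (y : ℂ)] 0) ^ k = ((s : ℝ) : ℂ) := by
        rw [← hxk]; simp
      have e2 : (![(x : ℂ), (y : ℂ)] 1) ^ l = ((s : ℝ) : ℂ) := by
        rw [← hyl]; simp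
      rw [e1, e2, hs]
      push_cast; norm_num

/-- the inner product with `1` is the value at the origin -/
lemma ip_one (p : MvPolynomial (Fin 2) ℂ) : ip 1 p = eval 0 p := by
  have h1 : (1 : MvPolynomial (Fin 2) ℂ) = monomial 0 1 := by simp
  unfold ip
  rw [h1, MvPolynomial.support_monomial, if_neg one_ne_zero, Finset.sum_singleton,
    coeff_monomial, if_pos rfl, map_one, one_mul, ← constantCoeff_eq]
  simp [constantCoeff, eval, eval₂Hom, Pi.zero_def]

lemma mono_expo_zero : mono (expo 0) = 1 := by simp [expo, mono]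

lemma mono_expo_one : mono (expo 1) = X 0 := by simp [expo, mono]

lemma mem_P_zero {q : MvPolynomial (Fin 2) ℂ} (hq : q ∈ P 0) : ∃ a : ℂ, q = a • 1 := by
  have : ({p | ∃ j : ℕ, j ≤ 0 ∧ p = mono (expo j)} : Set (MvPolynomial (Fin 2) ℂ)) = {1} := by
    ext p
    simp only [Set.mem_ofPred_eq, Set.mem_singleton_iff, Nat.le_zero]
    constructor
    · rintro ⟨j, rfl, rfl⟩; exact mono_expo_zero
    · rintro rfl; exact ⟨0, rfl, mono_expo_zero.symm⟩
  unfold P at hq
  rw [this, Submodule.mem_span_singleton] at hq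
  obtain ⟨a, ha⟩ := hq
  exact ⟨a, ha.symm⟩

lemma mem_P_one {q : MvPolynomial (Fin 2) ℂ} (hq : q ∈ P 1) :
    ∃ a b : ℂ, q = a • 1 + b • X 0 := by
  have : ({p | ∃ j : ℕ, j ≤ 1 ∧ p = mono (expo j)} : Set (MvPolynomial (Fin 2) ℂ)) =
      {1, X 0} := by
    ext p
    simp only [Set.mem_ofPred_eq, Set.mem_insert_iff, Set.mem_singleton_iff]
    constructor
    · rintro ⟨j, hj, rfl⟩
      interval_cases j
      · left; exact mono_expo_zero
      · right; exact mono_expo_one
    · rintro (rfl | rfl)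
      · exact ⟨0, by norm_num, mono_expo_zero.symm⟩
      · exact ⟨1, le_rfl, mono_expo_one.symm⟩
  unfold P at hq
  rw [this, Submodule.mem_span_pair] at hq
  obtain ⟨a, b, h⟩ := hq
  exact ⟨a, b, h.symm⟩

/-- no zeros for `n ≤ 1` -/
theorem no_zero {n : ℕ} (hn : n ≤ 1) (f : MvPolynomial (Fin 2) ℂ) (hf : eval 0 f ≠ 0)
    (q : MvPolynomial (Fin 2) ℂ) (hq : IsOPA f n q) (z : Fin 2 → ℂ) (hz : ∀ i, ‖z i‖ ≤ 1) :
    eval z q ≠ 0 := by
  have hf0 : f ≠ 0 := by
    rintro rfl
    apply hf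
    rw [map_zero]
  interval_cases n
  · obtain ⟨a, rfl⟩ := mem_P_zero hq.1
    have h1 := orth_of_min hq (mono (expo 0)) (mono_mem_P le_rfl)
    rw [mono_expo_zero, one_mul, smul_mul_assoc, one_mul, ip_sub_left, ip_smul_left, ip_one]
      at h1
    intro h
    rw [smul_eval, map_one, mul_one] at h
    rw [h, map_zero, zero_mul, zero_sub, neg_eq_zero] at h1
    exact hf h1
  · obtain ⟨a, b, rfl⟩ := mem_P_one hq.1
    have h0 := orth_of_min hq (mono (expo 0)) (mono_mem_P (by norm_num))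
    have h1 := orth_of_min hq (mono (expo 1)) (mono_mem_P le_rfl)
    rw [mono_expo_zero, one_mul, add_mul, smul_mul_assoc, smul_mul_assoc, one_mul, ip_sub_left,
      ip_add_left, ip_smul_left, ip_smul_left, ip_one] at h0
    rw [mono_expo_one, add_mul, smul_mul_assoc, smul_mul_assoc, one_mul, ip_sub_left,
      ip_add_left, ip_smul_left, ip_smul_left, ip_one] at h1
    intro h
    rw [map_add, smul_eval, smul_eval, map_one, mul_one, eval_X] at h
    have ha : a = -(b * z 0) := by linear_combination h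
    have e1 : eval 0 (X 0 * f) = 0 := by rw [map_mul, eval_X]; simp
    rw [e1] at h1
    -- norms
    have hX : h2sq (X 0 * f) = h2sq f := by
      unfold h2sq
      rw [support_X_mul, Finset.sum_map]
      refine Finset.sum_congr rfl fun m _ => ?_
      rw [addLeftEmbedding_apply, coeff_X_mul]
    have hX' : ip (X 0 * f) (X 0 * f) = ip f f := by rw [ip_self, ip_self, hX]
    rw [hX'] at h1
    set g := ip f (X 0 * f) with hg
    have hb : conj b = 0 ∨ ip f f = conj (z 0) * g := by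
      by_cases hb : conj b = 0
      · exact Or.inl hb
      · right
        apply mul_left_cancel₀ hb
        rw [ha] at h1
        simp only [map_neg, map_mul] at h1
        linear_combination h1
    rcases hb with hb | hb
    · rw [ha] at h0
      simp only [map_neg, map_mul, hb, zero_mul, neg_zero, add_zero, zero_sub, neg_eq_zero] at h0
      exact hf h0
    · -- strict Cauchy-Schwarz
      have hne : f + (-(conj (z 0))) • (X 0 * f) ≠ 0 := by
        intro h0'
        have := congrArg (eval 0) h0'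
        rw [map_add, smul_eval, e1, map_zero, mul_zero, add_zero] at this
        exact hf this
      have hpos := h2sq_pos hne
      rw [h2sq_add, h2sq_smul, hX, ip_smul_right, ← hg, neg_mul, ← hb, ip_self, norm_neg,
        RCLike.norm_conj] at hpos
      have h2 : (-((h2sq f : ℝ) : ℂ)).re = -(h2sq f) := by
        rw [Complex.neg_re, Complex.ofReal_re]
      rw [h2] at hpos
      have hz0 := hz 0
      have h3 : ‖z 0‖ ^ 2 * h2sq f ≤ 1 * h2sq f :=
        mul_le_mul_of_nonneg_right (pow_le_one₀ (norm_nonneg _) hz0) (h2sq_nonneg _)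
      linarith

end Pool.Agent.U592.Shanks
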